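import Pool.Agent.helper5.IH.Spec

/-!
# Row ih:BXY
-/

set_option autoImplicit false

namespace Pool.Agent.IH
open Finset CT SYM

/-- The matrix of a state is symmetric. -/
theorem BXY_symm {V : Type} [DecidableEq V] (H : SimpleGraph V) (t : V → Fin 3) : (MM H t).IsSymm := by
  apply Matrix.IsSymm.ext
  intro i j
  unfold MM
  rw [Matrix.of_apply, Matrix.of_apply]
  by_cases h : i = j
  · subst h
    rfl
  · have h' : j ≠ i := fun e => h e.symm
    rw [if_neg h, if_neg h']
    have e : (H.Adj j i ∧ t j ≠ 0 ∧ t i ≠ 0) ↔ (H.Adj i j ∧ t i ≠ 0 ∧ t j ≠ 0) := by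
      rw [H.adj_comm]
      tauto
    by_cases h2 : H.Adj i j ∧ t i ≠ 0 ∧ t j ≠ 0
    · rw [if_pos h2, if_pos (e.2 h2)]
    · rw [if_neg h2, if_neg fun h3 => h2 (e.1 h3)]

/-- There are no paths if `t x = 0` or `t y = 0`. -/
theorem BXY_pc {V : Type} (H : SimpleGraph V) (t : V → Fin 3) (x y : V) (hxy : x ≠ y)
    (h : t x = 0 ∨ t y = 0) : pc H x y t = 0 := by
  unfold pc
  have : IsEmpty {σ : Equiv.Perm V // Pt H x y σ ∧ Cp t σ} := by
    refine ⟨fun σ => ?_⟩
    obtain ⟨σ, hP, hC⟩ := σ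
    rcases h with h | h
    · have h1 : σ x = x := (hC x).1 h
      have h2 : σ y = σ x := by rw [hP.1, h1]
      exact hxy (σ.injective h2).symm
    · have h1 : σ y = y := (hC y).1 h
      exact hxy (hP.1.symm.trans h1)
  exact Nat.card_of_isEmpty

/-- **Row ih:BXY.** -/
theorem BXY (hDET : DET_stmt) (hADX : ADX_stmt) (hJAC : JAC_stmt) (hPTH : PTH_stmt) : BXY_stmt := by
  classical
  intro V _ _ H v x y hxy
  have e : (Bc H v x y : ZMod 2) = ∑ t : V → Fin 3,
      if t v = 0 ∧ Even (mu H t) ∧ Gx H t x ∧ Gx H t y then (1 : ZMod 2) else 0 := by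
    unfold Bc
    rw [Nat.card_eq_fintype_card, Fintype.card_subtype, Finset.card_filter, Nat.cast_sum]
    refine sum_congr rfl fun t _ => ?_
    split_ifs <;> simp
  rw [e]
  refine sum_congr rfl fun t _ => ?_
  by_cases hv : t v = 0
  · rw [if_pos hv]
    by_cases hm : Even (mu H t)
    · have hm0 : (mu H t : ZMod 2) = 0 := (ZMod.natCast_eq_zero_iff_even).2 hm
      rw [hm0, add_zero, one_mul]
      by_cases hx : t x = 0
      · rw [BXY_pc H t x y hxy (Or.inl hx), Nat.cast_zero, if_neg]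
        rintro ⟨_, _, h1, _⟩
        exact h1.1 hx
      · by_cases hy : t y = 0
        · rw [BXY_pc H t x y hxy (Or.inr hy), Nat.cast_zero, if_neg]
          rintro ⟨_, _, _, h1⟩
          exact h1.1 hy
        · have hdet : (MM H t).det = 0 := by rw [hDET V H t, hm0]
          have h1 := hJAC V (MM H t) x y (BXY_symm H t) hdet
          rw [hADX V H t x hx, hADX V H t y hy, hPTH V H t x y hxy] at h1
          rw [← h1]
          by_cases ox : Odd (mu H (Function.update t x 0))
          · rw [(ZMod.natCast_eq_one_iff_odd).2 ox, one_mul]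
            by_cases oy : Odd (mu H (Function.update t y 0))
            · rw [(ZMod.natCast_eq_one_iff_odd).2 oy, if_pos]
              exact ⟨hv, hm, ⟨hx, ox⟩, ⟨hy, oy⟩⟩
            · rw [(ZMod.natCast_eq_zero_iff_even).2 (Nat.not_odd_iff_even.1 oy), if_neg]
              rintro ⟨_, _, _, h2⟩
              exact oy h2.2
          · rw [(ZMod.natCast_eq_zero_iff_even).2 (Nat.not_odd_iff_even.1 ox), zero_mul, if_neg]
            rintro ⟨_, _, h2, _⟩
            exact ox h2.2
    · have hm1 : (mu H t : ZMod 2) = 1 := (ZMod.natCast_eq_one_iff_odd).2 (Nat.not_even_iff_odd.1 hm)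
      have h2 : (1 : ZMod 2) + 1 = 0 := by decide
      rw [hm1, h2, zero_mul, if_neg]
      rintro ⟨_, h1, _⟩
      exact hm h1
  · rw [if_neg hv, if_neg]
    rintro ⟨h1, _⟩
    exact hv h1

end Pool.Agent.IH
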